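import Pool.Agent.V5helper23.PF.Stm

/-!
# Project PF, piece BND: bounds for the controlled solution (helper9)
-/

set_option autoImplicit false
set_option linter.all false

open MeasureTheory Set Real Filter Topology intervalIntegral
open scoped ENNReal NNReal

namespace Pool.Agent.V5helper9.PF

open Pool.Agent.Y308.BC Pool.Agent.V5helper93.NS Pool.Agent.V5helper23.PF

/-- **BND** -/
theorem t_BND : Pool.Agent.V5helper23.PF.S_BND := by
  intro σ s0 hσ hs0
  have hCc := Cc_pos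
  have hdd := ddsum_nonneg
  refine ⟨8 * (Cc * (√2 * (8 / s0 ^ 2 * ∑' n, dd n))) *
    Real.exp (4 * (8 * max (7 / σ) (2 / s0)) ^ 2), by positivity, ?_⟩
  intro c m hm hc t x ht hx
  have hD : 0 ≤ max (7 / σ) (2 / s0) := Dnn hm hc hσ
  have hK : 0 ≤ Cc * (√2 * (8 / s0 ^ 2 * ∑' n, dd n)) * m := Knn hm hc hσ
  have hb : ∀ i, ∀ t ∈ Ici s0, |A c σ i t| ≤
      (Cc * (√2 * (8 / s0 ^ 2 * ∑' n, dd n)) * m) * wD (max (7 / σ) (2 / s0)) i :=
    fun i t ht => A_le hm hc hσ hs0 i ht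
  refine ⟨?_, ?_, ?_⟩
  · exact (hs_le hD hK hb (mem_Ici.2 ht) hx).trans (le_of_eq (by ring))
  · exact (hsx_le hD hK hb (mem_Ici.2 ht) hx).trans (le_of_eq (by ring))
  · exact (hsxx_le hD hK hb (mem_Ici.2 ht) hx).trans (le_of_eq (by ring))

end Pool.Agent.V5helper9.PF
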